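import Pool.Agent.H242.GX.Stm

set_option autoImplicit false

/-!
GX-FINAL (MP_ae5b4e_an, helper242): final assembly.
-/

open Set Filter Topology
open scoped ContDiff

namespace Pool.Agent.H726.GX

open Pool.Agent.H242.GX

theorem decomp (w : ℂ) (θ : ℝ) : w = ip w (e θ) • e θ + ip w (nu θ) • nu θ := by
  have h := Real.cos_sq_add_sin_sq θ
  apply Complex.ext
  · simp only [ip, e, nu, Complex.add_re, Complex.real_smul, Complex.mul_re, Complex.ofReal_re,
      Complex.ofReal_im, zero_mul, sub_zero]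
    linear_combination (-w.re) * h
  · simp only [ip, e, nu, Complex.add_im, Complex.real_smul, Complex.mul_im, Complex.ofReal_re,
      Complex.ofReal_im, zero_mul, add_zero]
    linear_combination (-w.im) * h

theorem second_smul (Y : ℂ → ℝ) (z u : ℂ) (l : ℝ) :
    fderiv ℝ (fderiv ℝ Y) z (l • u) (l • u) = l ^ 2 * fderiv ℝ (fderiv ℝ Y) z u u := by
  rw [map_smul, map_smul]
  simp only [smul_apply, smul_eq_mul]
  ring

theorem gx_FINAL (hWEB : S_WEB) (hEVEN : S_EVEN) (hDESC2 : S_DESC2) (hBODY : S_BODY)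
    (hCONV : S_CONV) (hTAN : S_TAN) (hSIG : S_SIG) : S_FINAL := by
  intro p hp
  obtain ⟨hT, hconv, hfr, _⟩ := hBODY p hp
  refine ⟨hT, hfr, ?_⟩
  obtain ⟨X, Z, hW⟩ := hWEB p hp
  obtain ⟨H, hH, hHper, hH0, hHder, hHodd⟩ := hEVEN p X Z hW
  obtain ⟨V, Y, hV, hfV, hY, hY0, hYpos, hder, heven⟩ :=
    hDESC2 p X Z hW H hH hHper hH0 hHder hHodd
  have hne : ∀ z ∈ frontier (body p), fderiv ℝ Y z ≠ 0 := by
    intro z hz h0
    rw [hfr] at hz
    obtain ⟨θ, rfl⟩ := hz
    have h1 := (hder θ).2.1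
    rw [h0, zero_apply] at h1
    exact lt_irrefl _ h1
  have key : ∀ z ∈ frontier (body p), ∀ w : ℂ, w ≠ 0 → fderiv ℝ Y z w = 0 →
      0 < fderiv ℝ (fderiv ℝ Y) z w w := by
    intro z hz w hw hwY
    rw [hfr] at hz
    obtain ⟨θ, rfl⟩ := hz
    obtain ⟨h1, h2, h3⟩ := hder θ
    have hd := decomp w θ
    have hm : ip w (nu θ) = 0 := by
      rw [hd, map_add, map_smul, map_smul, h1, smul_zero, zero_add, smul_eq_mul] at hwY
      rcases mul_eq_zero.1 hwY with h | h
      · exact h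
      · exact absurd h h2.ne'
    rw [hm, zero_smul, add_zero] at hd
    have hl : ip w (e θ) ≠ 0 := by
      intro h0
      rw [h0, zero_smul] at hd
      exact hw hd
    rw [hd, second_smul]
    have : 0 < ip w (e θ) ^ 2 := by positivity
    exact mul_pos this h3
  obtain ⟨U, hUV, hF⟩ := hCONV (body p) V Y hT.1 hconv hT.2.2.1 hV hfV hY hY0 hYpos hne key
  refine ⟨U, Y, hF, ?_⟩
  intro z hz v hv
  have hzU : z ∈ U := hF.frontier_subset hz
  have hz' := hz
  rw [hfr] at hz'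
  obtain ⟨θ, rfl⟩ := hz'
  obtain ⟨l, hl, rfl⟩ := hTAN p hp θ v hv
  obtain ⟨r, hr, hev⟩ := heven θ
  have hlpos : 0 < |l| := abs_pos.2 hl
  have hev' : ∀ t : ℝ, |t| < r / |l| →
      Y (gam p θ + t • (l • e θ)) = Y (gam p θ - t • (l • e θ)) := by
    intro t ht
    rw [smul_smul]
    refine hev (t * l) ?_
    rw [abs_mul]
    exact (lt_div_iff₀ hlpos).1 ht
  have hrl : 0 < r / |l| := div_pos hr hlpos
  refine ⟨?_, r / |l|, hrl, hev'⟩
  refine hSIG U Y (gam p θ) (l • e θ) (r / |l|) hF.isOpen hzU hF.smooth hrl hev' ?_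
  rw [second_smul]
  have : 0 < l ^ 2 := by positivity
  exact mul_pos this (hder θ).2.2

end Pool.Agent.H726.GX
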